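import Pool.Agent.helper9.RA.SpecE
import Pool.Agent.helper50.RA.NRA

/-! rw:NRA2: infinitesimal 1-jet returns at good points near the base point, second window form: the limits of the two lifts agree. -/

set_option autoImplicit false

open Complex Metric Set Filter Topology MeasureTheory
open HY (UD T S hd UN RM)
open RT
open PL (cm BS DQ)
open RB (VL LO FLS FL CLS FR TL TLL INN WIN DRT)
open RB (NCR WINB)

noncomputable section

namespace RA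

/-- the scales at `x` and `p`. -/
theorem NRA2_win (hTKO : TKO_stmt) (hTIN : TIN_stmt) (hVPB : RS.VPB_stmt) (hVCF : RS.VCF_stmt) {Y : Dyn} {s : ℝ} (hS : Sys Y s) :
    ∃ C : ℝ, 1 ≤ C ∧ ∀ (x p : ℂ), x ∈ Y.J → ∀ (H w u : ℕ), w ≤ H → u ≤ w → p ∈ VL Y H x → pd (VL Y H x) x p ≤ 3 / 4 → ∀ L : ℝ, 0 ≤ L →
      cr (VL Y (H - w + u) p) p ≤ L * cr (VL Y H p) p → cr (VL Y (H - w + u) x) x ≤ C * L * cr (VL Y H x) x := by
  obtain ⟨-, -, -, hTK⟩ := hTKO s hS.ok.s0 (hS.ok.s1.trans (by norm_num))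
  obtain ⟨C, hC, hTK2⟩ := hTK (3 / 4) (by norm_num) (by norm_num)
  refine ⟨C * C, by nlinarith, ?_⟩
  intro x p hx H w u hwH huw hpW hpd L hL hsz
  obtain ⟨-, -, -, -, -, hJPB⟩ := hVPB Y s 0 0 hS.ok Y.U hS.lv
  have hV := fun k => hVCF Y s 0 0 hS.ok Y.U hS.lv k x (hJPB k hx)
  have hsub : VL Y H x ⊆ VL Y (H - w + u) x := (hV H).2.2.2.2.2.1 _ (by omega)
  have t2 := ((hTIN s _ _ hS.ok.s0 (hV H).1 (hV (H - w + u)).1 hsub x (hV H).2.1).2 p).1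
  have hpu : p ∈ VL Y (H - w + u) x := hsub hpW
  have hpe : VL Y (H - w + u) p = VL Y (H - w + u) x := (hV (H - w + u)).2.2.2.1 _ hpu
  have hpH : VL Y H p = VL Y H x := (hV H).2.2.2.1 _ hpW
  have t3 := ((hTK2 _ (hV (H - w + u)).1 x (hV (H - w + u)).2.1).1 p hpu (t2.trans hpd)).2.2
  have t4 := ((hTK2 _ (hV H).1 x (hV H).2.1).1 p hpW hpd).2.1
  rw [hpe, hpH] at hsz
  have hC0 : 0 ≤ C := by linarith
  calc cr (VL Y (H - w + u) x) x ≤ C * cr (VL Y (H - w + u) x) p := t3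
    _ ≤ C * (L * (C * cr (VL Y H x) x)) := by
        refine mul_le_mul_of_nonneg_left (hsz.trans ?_) hC0
        exact mul_le_mul_of_nonneg_left t4 hL
    _ = C * C * L * cr (VL Y H x) x := by ring

theorem NRA2 (hAFB : AFB_stmt) (hHVB : HVB_stmt) (hFRX : CVL.FRX_stmt) (hFRB : CVL.FRB_stmt) (hTUL : V3.TUL_stmt) (hTMO : V3.TMO_stmt)
    (hTDE : V3.TDE_stmt) (hTDF : TDF_stmt) (hTLF : TLF_stmt) (hTPM : TPM_stmt) (hTKO : TKO_stmt) (hTIN : TIN_stmt) (hVIT : RS.VIT_stmt)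
    (hVPB : RS.VPB_stmt) (hVCF : RS.VCF_stmt) : NRA2_stmt := by
  intro Y s hS μ hIB P hP x hx U k H χ hk hFR w hw a₀ ha₀ hWIN L hL p u v e he hall
  obtain ⟨Cw, hCw, hwin⟩ := NRA2_win hTKO hTIN hVPB hVCF hS
  have hPk : ∀ᶠ j in (U : Filter ℕ), P (k j) (x j) (H j) := by
    obtain ⟨a', -, hW1⟩ := hWIN 1 le_rfl
    filter_upwards [hW1, hw] with j h1 h2
    have eH : H j - w j + w j = H j := Nat.sub_add_cancel h2.1
    have h3 := (h1 (w j) le_rfl (by rw [eH, one_mul])).1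
    rwa [eH] at h3
  obtain ⟨a, ha, hWL⟩ := hWIN (Cw * L) (by nlinarith)
  have hFL : FL Y μ x U H := hP.fl U k H x hFR.le hk hPk
  have he1 : ∀ᶠ j in (U : Filter ℕ), e j < 1 / 100 := he.eventually (gt_mem_nhds (by norm_num))
  have hs0 : 0 < s := hS.ok.s0
  have hs1 : s ≤ 1 := hS.ok.s1.trans (by norm_num)
  have hdom : ∀ᶠ j in (U : Filter ℕ), TD s (VL Y (H j) (x j)) ∧ x j ∈ VL Y (H j) (x j) ∧
      TD s (VL Y (H j - w j) (it Y (u j) (x j))) ∧ it Y (u j) (x j) ∈ VL Y (H j - w j) (it Y (u j) (x j)) ∧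
      MapsTo (it Y (u j)) (VL Y (H j) (x j)) (VL Y (H j - w j) (it Y (u j) (x j))) ∧
      MapsTo (it Y (v j)) (VL Y (H j) (x j)) (VL Y (H j - w j) (it Y (u j) (x j))) ∧
      DifferentiableOn ℂ (it Y (u j)) (VL Y (H j) (x j)) ∧ DifferentiableOn ℂ (it Y (v j)) (VL Y (H j) (x j)) ∧
      it Y (v j) (x j) ∈ VL Y (H j - w j) (it Y (u j) (x j)) ∧ VL Y (H j - w j) (it Y (u j) (p j)) = VL Y (H j - w j) (it Y (u j) (x j)) ∧
      VL Y (H j) (p j) = VL Y (H j) (x j) ∧ VL Y (H j - w j) (it Y (w j) (p j)) = VL Y (H j - w j) (it Y (w j) (x j)) := by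
    filter_upwards [hall, hw, he1] with j h1 h2 h3
    obtain ⟨hpJ, hpW, hpd, hhd, huv, hvw, hsz, hN⟩ := h1
    exact NRA_dom hVIT hVPB hVCF hS (hx j) hpJ h2.1 huv hvw (by linarith) hpW hN
  refine ⟨hdom.mono fun j h => h.2.2.2.2.2.2.2.2.1, ?_⟩
  obtain ⟨b₁, hb₁, k₁, hHVB'⟩ := hHVB Y s hS μ hIB P hP a (a₀ / 2) L ha (by linarith) hL
  have hkk : ∀ᶠ j in (U : Filter ℕ), k₁ ≤ k j := hk.eventually (eventually_ge_atTop k₁)
  have hL0 : 0 < L := by linarith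
  have hone : ∀ᶠ j in (U : Filter ℕ), ∃ q : ℂ × (ℂ → ℂ) × (ℂ → ℂ), ‖q.1‖ ≤ 3 / 4 ∧
      Lf (it Y (u j)) (VL Y (H j) (x j)) (VL Y (H j - w j) (it Y (u j) (x j))) (x j) (it Y (u j) (x j)) q.2.1 ∧ q.2.1 0 = 0 ∧
      Lf (it Y (v j)) (VL Y (H j) (x j)) (VL Y (H j - w j) (it Y (u j) (x j))) (x j) (it Y (u j) (x j)) q.2.2 ∧
      ‖q.2.1 q.1‖ ≤ 3 / 4 ∧ ‖q.2.2 q.1 - q.2.1 q.1‖ ≤ 2 * e j ∧ 7 / 16 * (b₁ / L) ≤ ‖deriv q.2.1 q.1‖ ∧
      deriv q.2.2 q.1 * (deriv (CVL.CN (VL Y (H j - w j) (it Y (u j) (x j))) (it Y (u j) (x j))) (q.2.2 q.1) /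
        deriv (CVL.CN (VL Y (H j - w j) (it Y (u j) (x j))) (it Y (u j) (x j))) (q.2.1 q.1)) =
        deriv q.2.1 q.1 * (deriv (it Y (v j)) (p j) / deriv (it Y (u j)) (p j)) := by
    filter_upwards [hall, hw, hdom, hkk, hWL] with j h1 h2 h4 h6 h7
    obtain ⟨hpJ, hpW, hpd, hhd, huv, hvw, hsz, hN⟩ := h1
    obtain ⟨hwH, hkn⟩ := h2
    obtain ⟨hDW, hxW, hDX, hyX, hmu, hmv, hdu, hdv, hxv, hpu, hpH, hpw⟩ := h4
    have hb1 : b₁ ≤ hv Y (H j - w j) (p j) (u j) := by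
      have eH : H j - w j + w j = H j := Nat.sub_add_cancel hwH
      obtain ⟨hPu, hLu⟩ := h7 (u j) (huv.le.trans hvw) (hwin (x j) (p j) (hx j) (H j) (w j) (u j) hwH (huv.le.trans hvw) hpW hpd L hL0.le hsz)
      refine hHVB' (k j) h6 (x j) (H j - w j) (w j) hkn (p j) hpJ (by rw [eH]; exact hpW) (by rw [eH]; exact hpd) ?_ (u j)
        (huv.le.trans hvw) hPu hLu ?_
      · unfold RA.hv
        rw [eH]
        show a₀ / 2 ≤ hdf (it Y (w j)) (VL Y (H j) (p j)) (VL Y (H j - w j) (it Y (w j) (p j))) (p j)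
        rw [hpH, hpw]
        exact hhd
      · unfold RA.cv
        rw [eH]
        exact hsz
    have hb2 : b₁ ≤ hdf (it Y (u j)) (VL Y (H j - w j + u j) (p j)) (VL Y (H j - w j) (it Y (u j) (x j))) (p j) := by
      have : hv Y (H j - w j) (p j) (u j) = hdf (it Y (u j)) (VL Y (H j - w j + u j) (p j)) (VL Y (H j - w j) (it Y (u j) (p j))) (p j) := rfl
      rw [this, hpu] at hb1
      exact hb1
    have hpuX : it Y (u j) (p j) ∈ VL Y (H j - w j) (it Y (u j) (x j)) := hmu hpW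
    have hcrX : 0 < cr (VL Y (H j - w j) (it Y (u j) (x j))) (it Y (u j) (p j)) := (hTDF s _ hDX _ hpuX).2.1
    have hl1 : b₁ * cr (VL Y (H j - w j) (it Y (u j) (x j))) (it Y (u j) (p j)) ≤
        ‖deriv (it Y (u j)) (p j)‖ * cr (VL Y (H j - w j + u j) (p j)) (p j) := by
      unfold hdf at hb2
      rwa [le_div_iff₀ hcrX] at hb2
    have hfu : deriv (it Y (u j)) (p j) ≠ 0 := by
      intro h
      rw [h, norm_zero, zero_mul] at hl1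
      nlinarith
    have hhd2 : b₁ / L ≤ hdf (it Y (u j)) (VL Y (H j) (x j)) (VL Y (H j - w j) (it Y (u j) (x j))) (p j) := by
      unfold hdf
      rw [div_le_div_iff₀ hL0 hcrX]
      refine hl1.trans ?_
      rw [hpH] at hsz
      calc ‖deriv (it Y (u j)) (p j)‖ * cr (VL Y (H j - w j + u j) (p j)) (p j) ≤ ‖deriv (it Y (u j)) (p j)‖ * (L * cr (VL Y (H j) (x j)) (p j)) := by
            gcongr
        _ = ‖deriv (it Y (u j)) (p j)‖ * cr (VL Y (H j) (x j)) (p j) * L := by ring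
    have hpdX : pd (VL Y (H j - w j) (it Y (u j) (x j))) (it Y (u j) (p j)) (it Y (v j) (p j)) ≤ e j := by
      have h9 : pd (VL Y (H j - w j) (it Y (u j) (p j))) (it Y (u j) (p j)) (it Y (v j) (p j)) ≤ e j := hN.1
      rwa [hpu] at h9
    obtain ⟨z, A, B, q1, q2, q3, q4, q5, q6, q7, q8⟩ := NRA_one hTDF hTLF hTPM hDW hDX hxW hpW hpd hdu hdv hmu hmv rfl hpdX
      (c := b₁ / L) hhd2 hfu
    exact ⟨(z, A, B), q1, q2, q3, q4, q5, q6, q7, q8⟩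
  obtain ⟨q, hq⟩ := hone.choice
  obtain ⟨z₀, hz₀n, hz₀⟩ := hTUL U (fun j => (q j).1) (3 / 4) (hq.mono fun j h => h.1)
  have hz₀U : z₀ ∈ UD := by
    show z₀ ∈ ball (0 : ℂ) 1
    rw [mem_ball_zero_iff]
    linarith
  obtain ⟨A, hA, hAd, hA'⟩ := NRA_lim hTMO hTDE (Aj := fun j => (q j).2.1) (hq.mono fun j h => ⟨h.2.1.1, h.2.1.2.1⟩)
  obtain ⟨B, hB, hBd, hB'⟩ := NRA_lim hTMO hTDE (Aj := fun j => (q j).2.2) (hq.mono fun j h => ⟨h.2.2.2.1.1, h.2.2.2.1.2.1⟩)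
  have hUo : IsOpen UD := isOpen_ball
  have hzw : Tendsto (fun j => (q j).1) U (𝓝[UD] z₀) := tendsto_nhdsWithin_iff.2 ⟨hz₀, hz₀.eventually (hUo.mem_nhds hz₀U)⟩
  have hα1 : Tendsto (fun j => (q j).2.1 (q j).1) U (𝓝 (A z₀)) := hA.tendsto_comp (x := z₀) (hAd.continuousOn z₀ hz₀U) hz₀U hzw
  have hβ1 : Tendsto (fun j => (q j).2.2 (q j).1) U (𝓝 (B z₀)) := hB.tendsto_comp (x := z₀) (hBd.continuousOn z₀ hz₀U) hz₀U hzw
  have hα2 : Tendsto (fun j => deriv (q j).2.1 (q j).1) U (𝓝 (deriv A z₀)) :=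
    hA'.tendsto_comp (x := z₀) ((hAd.deriv hUo).continuousOn z₀ hz₀U) hz₀U hzw
  have hβ2 : Tendsto (fun j => deriv (q j).2.2 (q j).1) U (𝓝 (deriv B z₀)) :=
    hB'.tendsto_comp (x := z₀) ((hBd.deriv hUo).continuousOn z₀ hz₀U) hz₀U hzw
  have hval : A z₀ = B z₀ := by
    have h1 : Tendsto (fun j => (q j).2.2 (q j).1 - (q j).2.1 (q j).1) U (𝓝 (B z₀ - A z₀)) := hβ1.sub hα1
    have h2 : Tendsto (fun j => (q j).2.2 (q j).1 - (q j).2.1 (q j).1) U (𝓝 0) := by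
      refine squeeze_zero_norm' (hq.mono fun j h => h.2.2.2.2.2.1) ?_
      simpa using he.const_mul 2
    have h3 := tendsto_nhds_unique h1 h2
    exact (sub_eq_zero.1 h3).symm
  have hAz₀ : A z₀ ∈ UD := by
    have h1 : ‖A z₀‖ ≤ 3 / 4 := le_of_tendsto hα1.norm (hq.mono fun j h => h.2.2.2.2.1)
    show A z₀ ∈ ball (0 : ℂ) 1
    rw [mem_ball_zero_iff]
    linarith
  have hc0 : 0 < 7 / 16 * (b₁ / L) := by positivity
  have hd0 : deriv A z₀ ≠ 0 := by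
    have h1 : 7 / 16 * (b₁ / L) ≤ ‖deriv A z₀‖ := ge_of_tendsto hα2.norm (hq.mono fun j h => h.2.2.2.2.2.2.1)
    intro h
    rw [h, norm_zero] at h1
    linarith
  have hdd : deriv B z₀ = deriv A z₀ := by
    have hσ : Tendsto (fun j => deriv (it Y (v j)) (p j) / deriv (it Y (u j)) (p j)) U (𝓝 1) := by
      have h1 : Tendsto (fun j => deriv (it Y (v j)) (p j) / deriv (it Y (u j)) (p j) - 1) U (𝓝 0) :=
        squeeze_zero_norm' (hall.mono fun j h => h.2.2.2.2.2.2.2.2) he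
      have h2 := h1.add_const 1
      simpa using h2
    obtain ⟨χX, hχX⟩ := hFRX s U (fun j => VL Y (H j - w j) (it Y (u j) (x j))) (fun j => it Y (u j) (x j)) hs0 hs1
      (hdom.mono fun j h => ⟨h.2.2.1, h.2.2.2.1⟩)
    obtain ⟨hχd, -, -, hχ0, hχc, -⟩ := hFRB s U _ _ χX hχX
    have hc' : ContinuousOn (deriv χX) UD := (hχd.deriv hUo).continuousOn
    have hBw : Tendsto (fun j => (q j).2.2 (q j).1) U (𝓝[UD] (A z₀)) := by
      rw [hval]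
      rw [hval] at hAz₀
      exact tendsto_nhdsWithin_iff.2 ⟨hβ1, hβ1.eventually (hUo.mem_nhds hAz₀)⟩
    have hAw : Tendsto (fun j => (q j).2.1 (q j).1) U (𝓝[UD] (A z₀)) :=
      tendsto_nhdsWithin_iff.2 ⟨hα1, hα1.eventually (hUo.mem_nhds hAz₀)⟩
    have hr1 := hχc.tendsto_comp (x := A z₀) (hc' _ hAz₀) hAz₀ hBw
    have hr2 := hχc.tendsto_comp (x := A z₀) (hc' _ hAz₀) hAz₀ hAw
    have hρ1 := hr1.div hr2 (hχ0 _ hAz₀)
    rw [div_self (hχ0 _ hAz₀)] at hρ1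
    have h3 := hβ2.mul hρ1
    have h4 := hα2.mul hσ
    have h5 := tendsto_nhds_unique (h3.congr' (hq.mono fun j h => h.2.2.2.2.2.2.2)) h4
    simpa using h5
  have hAB := hAFB Y s hS μ hIB x hx U H χ hFR hFL u v (fun j => VL Y (H j - w j) (it Y (u j) (x j))) (fun j => it Y (u j) (x j))
    (fun j => (q j).2.1) (fun j => (q j).2.2) A B (by
      filter_upwards [hall, hw, hdom, hq] with j h1 h2 h4 h5
      exact ⟨(h1.2.2.2.2.1.le.trans h1.2.2.2.2.2.1).trans h2.1, h1.2.2.2.2.2.1.trans h2.1, h4.2.2.1, h4.2.2.2.1, h5.2.1, h5.2.2.2.1⟩)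
    hA hB z₀ hz₀U hval hAz₀ hd0 hdd
  refine ⟨fun j => (q j).2.1, fun j => (q j).2.2, A, ⟨z₀, hz₀U, hd0⟩, hq.mono fun j h => ⟨h.2.1, h.2.2.1, h.2.2.2.1⟩, hA, ?_⟩
  exact hB.congr_right fun z hz => (hAB z hz).symm

end RA

end
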